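import Pool.Agent.Q145.LY.Stm

/-!
# Project LY (helper145), job JG: the moments of `JP` along a polynomial (1)
-/

set_option autoImplicit false

namespace Pool.Agent.Q285.LY

open Finset Filter
open Pool.Agent.Q145.SZ Pool.Agent.Q145.LQ Pool.Agent.Q145.LE Pool.Agent.Q261.SZ Pool.Agent.Q53.LQ.JPOLY Pool.Agent.Q53.LQ.HSQ

theorem expand (P : Finset ℕ) (hP : ∀ p ∈ P, p.Prime) (g : ℕ → ℝ) (h : ℕ) :
    ∏ p ∈ P, (1 + if p ∣ h then g p else 0) =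
      ∑ E ∈ P.powerset, if (∏ p ∈ E, p) ∣ h then ∏ p ∈ E, g p else 0 := by
  rw [prod_one_add]
  refine sum_congr rfl fun E hE => ?_
  rw [mem_powerset] at hE
  have hEp : ∀ p ∈ E, p.Prime := fun p hp => hP p (hE hp)
  split_ifs with hd
  · rw [dvd_prod_iff E hEp] at hd
    exact prod_congr rfl fun p hp => if_pos (hd p hp)
  · rw [dvd_prod_iff E hEp] at hd
    push Not at hd
    obtain ⟨p, hp, hpd⟩ := hd
    exact prod_eq_zero hp (if_neg hpd)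

/-- the product over the small primes -/
noncomputable def FF (z y M h : ℕ) : ℝ := ∏ p ∈ (Ioc z y).filter Nat.Prime, (1 + if p ∣ h then gj M p else 0)

theorem FF_nonneg (z y M h : ℕ) : 0 ≤ FF z y M h := by
  unfold FF
  refine prod_nonneg fun p hp => ?_
  have h1 := gj_nonneg (M := M) (mem_filter.1 hp).2.two_le
  split_ifs
  · linarith
  · norm_num

theorem JP_split (z y M h : ℕ) (hzy : z ≤ y) (h0 : h ≠ 0) : JP z h ^ M = FF z y M h * JP y h ^ M := by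
  have h1 : JP z h = (∏ p ∈ h.primeFactors.filter (fun p => z < p ∧ p ≤ y), (p : ℝ) / ((p : ℝ) - 1)) * JP y h := by
    unfold JP
    rw [← prod_union]
    · refine prod_congr ?_ fun _ _ => rfl
      ext p
      simp only [mem_union, mem_filter]
      constructor
      · rintro ⟨a, b⟩
        rcases le_or_gt p y with h2 | h2
        · exact Or.inl ⟨a, b, h2⟩
        · exact Or.inr ⟨a, h2⟩
      · rintro (⟨a, b, -⟩ | ⟨a, b⟩)
        · exact ⟨a, b⟩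
        · exact ⟨a, lt_of_le_of_lt hzy b⟩
    · rw [disjoint_left]
      intro p hp hq
      have h2 := (mem_filter.1 hp).2.2
      have h3 := (mem_filter.1 hq).2
      omega
  have h2 : FF z y M h = (∏ p ∈ h.primeFactors.filter (fun p => z < p ∧ p ≤ y), (p : ℝ) / ((p : ℝ) - 1)) ^ M := by
    unfold FF
    rw [← prod_pow]
    have h3 : ∏ p ∈ (Ioc z y).filter Nat.Prime, (1 + if p ∣ h then gj M p else 0) =
        ∏ p ∈ (Ioc z y).filter Nat.Prime, (if p ∣ h then ((p : ℝ) / ((p : ℝ) - 1)) ^ M else 1) := by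
      refine prod_congr rfl fun p _ => ?_
      split_ifs
      · unfold gj
        ring
      · rw [add_zero]
    rw [h3, ← prod_filter]
    refine prod_congr ?_ fun _ _ => rfl
    ext p
    simp only [mem_filter, Nat.mem_primeFactors, mem_Ioc]
    constructor
    · rintro ⟨⟨⟨a, b⟩, c⟩, d⟩
      exact ⟨⟨c, d, h0⟩, a, b⟩
    · rintro ⟨⟨c, d, -⟩, a, b⟩
      exact ⟨⟨⟨a, b⟩, c⟩, d⟩
  rw [h1, mul_pow, h2]

theorem JP_tail (y M h Z : ℕ) (hy : 2 ≤ y) (hM : 8 * M ≤ y) (h0 : h ≠ 0) (hZ : h ≤ Z) :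
    JP y h ^ M ≤ Real.exp (8 * M * Real.log Z / y) := by
  have hy0 : (0 : ℝ) < y := by exact_mod_cast (show 0 < y by omega)
  unfold JP
  rw [← prod_pow]
  have h1 : ∀ p ∈ h.primeFactors.filter (fun p => y < p), ((p : ℝ) / ((p : ℝ) - 1)) ^ M ≤ Real.exp (4 * M / y) := by
    intro p hp
    have hp2 : 2 ≤ p := (Nat.prime_of_mem_primeFactors (mem_filter.1 hp).1).two_le
    have hyp : y < p := (mem_filter.1 hp).2
    have h2 := gj_le (M := M) hp2 (by omega)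
    have h3 : 4 * (M : ℝ) / p ≤ 4 * M / y := by
      have : (y : ℝ) ≤ p := by exact_mod_cast hyp.le
      gcongr
    have h4 := Real.add_one_le_exp (4 * (M : ℝ) / y)
    unfold gj at h2
    linarith
  have h2 : ∀ p ∈ h.primeFactors.filter (fun p => y < p), 0 ≤ ((p : ℝ) / ((p : ℝ) - 1)) ^ M := by
    intro p hp
    have hp2 : 2 ≤ p := (Nat.prime_of_mem_primeFactors (mem_filter.1 hp).1).two_le
    have : (2 : ℝ) ≤ p := by exact_mod_cast hp2
    have : 0 ≤ (p : ℝ) / ((p : ℝ) - 1) := div_nonneg (by linarith) (by linarith)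
    positivity
  refine (prod_le_prod h2 h1).trans ?_
  rw [prod_const, ← Real.exp_nat_mul, Real.exp_le_exp]
  have hcard : ((h.primeFactors.filter (fun p => y < p)).card : ℝ) ≤ 2 * Real.log Z := by
    have h3 : (h.primeFactors.filter (fun p => y < p)).card ≤ h.primeFactors.card := card_le_card (filter_subset _ _)
    have h4 : 2 ^ h.primeFactors.card ≤ h := by
      calc 2 ^ h.primeFactors.card = ∏ p ∈ h.primeFactors, 2 := by rw [prod_const]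
        _ ≤ ∏ p ∈ h.primeFactors, p := prod_le_prod (fun _ _ => Nat.zero_le _) fun p hp =>
            (Nat.prime_of_mem_primeFactors hp).two_le
        _ ≤ h := Nat.le_of_dvd (Nat.pos_of_ne_zero h0) (Nat.prod_primeFactors_dvd h)
    have h5 : (2 : ℝ) ^ h.primeFactors.card ≤ Z := by exact_mod_cast h4.trans hZ
    have h6 : (h.primeFactors.card : ℝ) * Real.log 2 ≤ Real.log Z := by
      rw [← Real.log_pow]
      exact Real.log_le_log (by positivity) h5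
    have h7 := Real.log_two_gt_d9
    have h8 : ((h.primeFactors.filter (fun p => y < p)).card : ℝ) ≤ h.primeFactors.card := by exact_mod_cast h3
    have h9 : (0 : ℝ) ≤ h.primeFactors.card := Nat.cast_nonneg _
    nlinarith
  calc ((h.primeFactors.filter (fun p => y < p)).card : ℝ) * (4 * M / y) ≤ (2 * Real.log Z) * (4 * M / y) := by
        gcongr
    _ = 8 * M * Real.log Z / y := by ring

theorem second_leY {C₁ : ℝ} (z Z M d : ℕ) (hz : 2 ≤ z) (hM : 8 * M ≤ z)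
    (hSQ : ∑ p ∈ (Ioc z Z).filter Nat.Prime, 1 / ((p : ℝ) * √p) ≤ C₁ / √z) :
    ∏ p ∈ (Ioc z Z).filter Nat.Prime, (1 + d * gj M p / √p) ≤ Real.exp (d * C₁ * √z) := by
  have hPm : ∀ p ∈ (Ioc z Z).filter Nat.Prime, 2 ≤ p ∧ 8 * M ≤ p := by
    intro p hp
    rw [mem_filter, mem_Ioc] at hp
    omega
  have hz0 : (0 : ℝ) < z := by exact_mod_cast (show 0 < z by omega)
  have hs0 : 0 < √(z : ℝ) := Real.sqrt_pos.2 hz0
  have h1 : ∏ p ∈ (Ioc z Z).filter Nat.Prime, (1 + d * gj M p / √p) ≤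
      ∏ p ∈ (Ioc z Z).filter Nat.Prime, Real.exp (4 * d * M * (1 / ((p : ℝ) * √p))) := by
    refine prod_le_prod (fun p hp => ?_) fun p hp => ?_
    · have := gj_nonneg (M := M) (hPm p hp).1
      positivity
    · have h2 := gj_le (hPm p hp).1 (hPm p hp).2
      have hp0 : (0 : ℝ) < p := by exact_mod_cast (show 0 < p by have := (hPm p hp).1; omega)
      have hps : 0 < √(p : ℝ) := Real.sqrt_pos.2 hp0
      have h3 : d * gj M p / √p ≤ 4 * d * M * (1 / ((p : ℝ) * √p)) := by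
        calc d * gj M p / √p ≤ (d * (4 * M / p)) / √p := by gcongr
          _ = _ := by field_simp
      have := Real.add_one_le_exp (4 * (d : ℝ) * (M : ℝ) * (1 / ((p : ℝ) * √p)))
      linarith
  refine h1.trans ?_
  rw [← Real.exp_sum, ← mul_sum]
  refine Real.exp_le_exp.2 ?_
  have hMr : 4 * (M : ℝ) ≤ z := by
    have : 8 * (M : ℝ) ≤ z := by exact_mod_cast hM
    linarith
  have hC1 : 0 ≤ C₁ / √(z : ℝ) := le_trans (sum_nonneg fun _ _ => by positivity) hSQ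
  calc 4 * (d : ℝ) * (M : ℝ) * ∑ p ∈ (Ioc z Z).filter Nat.Prime, 1 / ((p : ℝ) * √p) ≤
        4 * (d : ℝ) * (M : ℝ) * (C₁ / √z) := by gcongr
    _ = d * (4 * M) * (C₁ / √z) := by ring
    _ ≤ d * z * (C₁ / √z) := by gcongr
    _ = d * C₁ * √z := by
      rw [mul_div_assoc', div_eq_iff hs0.ne']
      have := Real.mul_self_sqrt hz0.le
      calc (d : ℝ) * z * C₁ = d * C₁ * z := by ring
        _ = d * C₁ * (√z * √z) := by rw [this]
        _ = _ := by ring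

/-- `√(∏ p) = ∏ √p` -/
theorem sqrt_prod (E : Finset ℕ) : √((∏ p ∈ E, p : ℕ) : ℝ) = ∏ p ∈ E, √(p : ℝ) := by
  have h1 : ((∏ p ∈ E, p : ℕ) : ℝ) = (∏ p ∈ E, √(p : ℝ)) ^ 2 := by
    rw [← prod_pow]
    push_cast
    exact prod_congr rfl fun p _ => (Real.sq_sqrt (Nat.cast_nonneg _)).symm
  rw [h1, Real.sqrt_sq (prod_nonneg fun _ _ => Real.sqrt_nonneg _)]

/-- small divisors -/
theorem part1 (z y Y M d : ℕ) (hW : 0 < PW z) (N : Finset ℕ → ℝ)
    (hN : ∀ E ∈ ((Ioc z y).filter Nat.Prime).powerset, N E ≤ d ^ E.card * ((Y : ℝ) / (PW z * ∏ p ∈ E, p : ℕ) + 1)) :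
    ∑ E ∈ ((Ioc z y).filter Nat.Prime).powerset.filter (fun E => ∏ p ∈ E, p ≤ y ^ 4), N E * ∏ p ∈ E, gj M p ≤
      (Y : ℝ) / PW z * ∏ p ∈ (Ioc z y).filter Nat.Prime, (1 + d * gj M p / p) +
        (y : ℝ) ^ 2 * ∏ p ∈ (Ioc z y).filter Nat.Prime, (1 + d * gj M p / √p) := by
  classical
  rw [prod_one_add, prod_one_add, mul_sum, mul_sum, ← sum_add_distrib]
  have hnn : ∀ E ∈ ((Ioc z y).filter Nat.Prime).powerset,
      0 ≤ (Y : ℝ) / PW z * (∏ p ∈ E, (d : ℝ) * gj M p / (p : ℝ)) + (y : ℝ) ^ 2 * ∏ p ∈ E, (d : ℝ) * gj M p / √(p : ℝ) := by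
    intro E hE
    have hEp : ∀ p ∈ E, p.Prime := fun p hp => (mem_filter.1 (mem_powerset.1 hE hp)).2
    have a1 : 0 ≤ ∏ p ∈ E, (d : ℝ) * gj M p / (p : ℝ) := prod_nonneg fun p hp =>
      div_nonneg (mul_nonneg (Nat.cast_nonneg _) (gj_nonneg (hEp p hp).two_le)) (Nat.cast_nonneg _)
    have a2 : 0 ≤ ∏ p ∈ E, (d : ℝ) * gj M p / √(p : ℝ) := prod_nonneg fun p hp =>
      div_nonneg (mul_nonneg (Nat.cast_nonneg _) (gj_nonneg (hEp p hp).two_le)) (Real.sqrt_nonneg _)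
    positivity
  refine le_trans (sum_le_sum fun E hE => ?_) (sum_le_sum_of_subset_of_nonneg (filter_subset _ _) fun E hE _ => hnn E hE)
  obtain ⟨hE1, hE2⟩ := mem_filter.1 hE
  have hEp : ∀ p ∈ E, p.Prime := fun p hp => (mem_filter.1 (mem_powerset.1 hE1 hp)).2
  have hG0 : 0 ≤ ∏ p ∈ E, gj M p := prod_nonneg fun p hp => gj_nonneg (hEp p hp).two_le
  have he0 : 0 < ∏ p ∈ E, p := prod_pos fun p hp => (hEp p hp).pos
  have her : (0 : ℝ) < ((∏ p ∈ E, p : ℕ) : ℝ) := by exact_mod_cast he0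
  have hWr : (0 : ℝ) < PW z := by exact_mod_cast hW
  have hs : √((∏ p ∈ E, p : ℕ) : ℝ) ≤ (y : ℝ) ^ 2 := by
    rw [Real.sqrt_le_left (by positivity)]
    have : ((∏ p ∈ E, p : ℕ) : ℝ) ≤ ((y ^ 4 : ℕ) : ℝ) := by exact_mod_cast hE2
    refine this.trans (le_of_eq ?_)
    push_cast
    ring
  have hs0 : 0 < √((∏ p ∈ E, p : ℕ) : ℝ) := Real.sqrt_pos.2 her
  have h4 : ∏ p ∈ E, (d : ℝ) * gj M p / (p : ℝ) = d ^ E.card * (∏ p ∈ E, gj M p) / ((∏ p ∈ E, p : ℕ) : ℝ) := by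
    rw [prod_div_distrib, prod_mul_distrib, prod_const]
    push_cast
    rfl
  have h5 : ∏ p ∈ E, (d : ℝ) * gj M p / √(p : ℝ) = d ^ E.card * (∏ p ∈ E, gj M p) / √((∏ p ∈ E, p : ℕ) : ℝ) := by
    rw [prod_div_distrib, prod_mul_distrib, prod_const, sqrt_prod]
  rw [h4, h5]
  refine (mul_le_mul_of_nonneg_right (hN E hE1) hG0).trans ?_
  have hDG : 0 ≤ (d : ℝ) ^ E.card * ∏ p ∈ E, gj M p := by positivity
  have h6 : (d : ℝ) ^ E.card * (∏ p ∈ E, gj M p) ≤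
      (y : ℝ) ^ 2 * ((d : ℝ) ^ E.card * (∏ p ∈ E, gj M p) / √((∏ p ∈ E, p : ℕ) : ℝ)) := by
    calc (d : ℝ) ^ E.card * (∏ p ∈ E, gj M p) =
        √((∏ p ∈ E, p : ℕ) : ℝ) * ((d : ℝ) ^ E.card * (∏ p ∈ E, gj M p) / √((∏ p ∈ E, p : ℕ) : ℝ)) := by
          rw [mul_div_cancel₀ _ hs0.ne']
      _ ≤ _ := mul_le_mul_of_nonneg_right hs (div_nonneg hDG hs0.le)
  have h7 : (d : ℝ) ^ E.card * ((Y : ℝ) / (PW z * ∏ p ∈ E, p : ℕ) + 1) * ∏ p ∈ E, gj M p =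
      (Y : ℝ) / PW z * ((d : ℝ) ^ E.card * (∏ p ∈ E, gj M p) / ((∏ p ∈ E, p : ℕ) : ℝ)) +
        (d : ℝ) ^ E.card * (∏ p ∈ E, gj M p) := by
    push_cast at her ⊢
    field_simp
  rw [h7]
  linarith

/-- large divisors -/
theorem part2 (z y Y M d : ℕ) (hW : 0 < PW z) (hy : 0 < y) (hyY : y ^ 3 ≤ Y) (N : Finset ℕ → ℝ)
    (hN : ∀ E ∈ ((Ioc z y).filter Nat.Prime).powerset, N E ≤ d ^ E.card * ((Y : ℝ) / (PW z * ∏ p ∈ E, p : ℕ) + 1)) :
    ∑ E ∈ ((Ioc z y).filter Nat.Prime).powerset.filter (fun E => y ^ 2 < ∏ p ∈ E, p ∧ ∏ p ∈ E, p ≤ y ^ 3),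
      N E * ∏ p ∈ E, gj M p ≤
      2 * Y / y * ∏ p ∈ (Ioc z y).filter Nat.Prime, (1 + d * gj M p / √p) := by
  classical
  have hyr : (0 : ℝ) < y := by exact_mod_cast hy
  rw [prod_one_add, mul_sum]
  have hnn : ∀ E ∈ ((Ioc z y).filter Nat.Prime).powerset,
      0 ≤ 2 * (Y : ℝ) / y * ∏ p ∈ E, (d : ℝ) * gj M p / √(p : ℝ) := by
    intro E hE
    have hEp : ∀ p ∈ E, p.Prime := fun p hp => (mem_filter.1 (mem_powerset.1 hE hp)).2
    have a2 : 0 ≤ ∏ p ∈ E, (d : ℝ) * gj M p / √(p : ℝ) := prod_nonneg fun p hp =>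
      div_nonneg (mul_nonneg (Nat.cast_nonneg _) (gj_nonneg (hEp p hp).two_le)) (Real.sqrt_nonneg _)
    positivity
  refine le_trans (sum_le_sum fun E hE => ?_) (sum_le_sum_of_subset_of_nonneg (filter_subset _ _) fun E hE _ => hnn E hE)
  obtain ⟨hE1, hE2, hE3⟩ := mem_filter.1 hE
  have hEp : ∀ p ∈ E, p.Prime := fun p hp => (mem_filter.1 (mem_powerset.1 hE1 hp)).2
  have hG0 : 0 ≤ ∏ p ∈ E, gj M p := prod_nonneg fun p hp => gj_nonneg (hEp p hp).two_le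
  have he0 : 0 < ∏ p ∈ E, p := prod_pos fun p hp => (hEp p hp).pos
  have her : (0 : ℝ) < ((∏ p ∈ E, p : ℕ) : ℝ) := by exact_mod_cast he0
  have hWr : (0 : ℝ) < PW z := by exact_mod_cast hW
  have hW1 : (1 : ℝ) ≤ PW z := by exact_mod_cast hW
  have hs0 : 0 < √((∏ p ∈ E, p : ℕ) : ℝ) := Real.sqrt_pos.2 her
  have hs : (y : ℝ) ≤ √((∏ p ∈ E, p : ℕ) : ℝ) := by
    apply Real.le_sqrt_of_sq_le
    have : ((y ^ 2 : ℕ) : ℝ) ≤ ((∏ p ∈ E, p : ℕ) : ℝ) := by exact_mod_cast hE2.le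
    refine le_trans (le_of_eq ?_) this
    push_cast
    ring
  have hYe : ((∏ p ∈ E, p : ℕ) : ℝ) ≤ Y := by exact_mod_cast hE3.trans hyY
  have h5 : ∏ p ∈ E, (d : ℝ) * gj M p / √(p : ℝ) = d ^ E.card * (∏ p ∈ E, gj M p) / √((∏ p ∈ E, p : ℕ) : ℝ) := by
    rw [prod_div_distrib, prod_mul_distrib, prod_const, sqrt_prod]
  rw [h5]
  refine (mul_le_mul_of_nonneg_right (hN E hE1) hG0).trans ?_
  have hDG : 0 ≤ (d : ℝ) ^ E.card * ∏ p ∈ E, gj M p := by positivity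
  have h6 : (Y : ℝ) / (PW z * ∏ p ∈ E, p : ℕ) + 1 ≤ 2 * Y / y * (1 / √((∏ p ∈ E, p : ℕ) : ℝ)) := by
    have a1 : (Y : ℝ) / (PW z * ∏ p ∈ E, p : ℕ) ≤ Y / ((∏ p ∈ E, p : ℕ) : ℝ) := by
      refine div_le_div_of_nonneg_left (Nat.cast_nonneg _) her ?_
      push_cast
      push_cast at her
      exact le_mul_of_one_le_left her.le hW1
    have a2 : (1 : ℝ) ≤ Y / ((∏ p ∈ E, p : ℕ) : ℝ) := by
      rw [one_le_div her]
      exact hYe
    have a3 : 2 * ((Y : ℝ) / ((∏ p ∈ E, p : ℕ) : ℝ)) ≤ 2 * Y / y * (1 / √((∏ p ∈ E, p : ℕ) : ℝ)) := by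
      rw [div_mul_div_comm, mul_one, ← mul_div_assoc]
      refine div_le_div_of_nonneg_left (by positivity) (by positivity) ?_
      calc (y : ℝ) * √((∏ p ∈ E, p : ℕ) : ℝ) ≤ √((∏ p ∈ E, p : ℕ) : ℝ) * √((∏ p ∈ E, p : ℕ) : ℝ) :=
            mul_le_mul_of_nonneg_right hs hs0.le
        _ = _ := Real.mul_self_sqrt her.le
    linarith
  calc (d : ℝ) ^ E.card * ((Y : ℝ) / (PW z * ∏ p ∈ E, p : ℕ) + 1) * ∏ p ∈ E, gj M p =
        ((d : ℝ) ^ E.card * ∏ p ∈ E, gj M p) * ((Y : ℝ) / (PW z * ∏ p ∈ E, p : ℕ) + 1) := by ring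
    _ ≤ ((d : ℝ) ^ E.card * ∏ p ∈ E, gj M p) * (2 * Y / y * (1 / √((∏ p ∈ E, p : ℕ) : ℝ))) :=
        mul_le_mul_of_nonneg_left h6 hDG
    _ = _ := by ring

end Pool.Agent.Q285.LY
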